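import Mathlib
import Pool.Agent.Y928.JL.Fam
import Pool.Agent.TH818.SA.MA2

/-!
# The digits of odd zeta values satisfy no common short linear recurrence

The linear complexity `N(x; L)` of the first `L` digits of `x` in base `b` is the least order of a
linear recurrence over `ℚ` which they satisfy; `x` is rational if and only if it is bounded for
`L → ∞`. It is shown that for large `s`, in every base and at every large scale `L`, at least
`(1/1000) √(s log log s / log s)` of the numbers `ζ(3), ζ(5), …, ζ(s)` have linear complexity at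
least `(1 - ε) L / s`, and that the joint linear complexity of these numbers (one recurrence for all
digit sequences) is at least `(1 - 1/(D+1) - o(1)) L` for every `D ≤ log log s / 1000`, even if fewer
than `(1/(1000 D)) √(s log log s / log s)` of them are left out.
-/

set_option autoImplicit false

namespace Pool.Agent.Results.MP_c2395a_nt.DigitComplexity

open Finset

/-- the `i`-th digit of `x` after the point in base `b` -/
noncomputable def digit (b : ℕ) (x : ℝ) (i : ℕ) : ℤ := ⌊x * (b : ℝ) ^ i⌋ % (b : ℤ)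

/-- The terms `s_1, …, s_L` satisfy the linear recurrence
`s_(i+m) = c_0 s_i + … + c_(m-1) s_(i+m-1)` for `1 ≤ i ≤ L - m`. -/
def Recurrence (s : ℕ → ℤ) (c : ℕ → ℚ) (L m : ℕ) : Prop :=
  ∀ i : ℕ, 1 ≤ i → i + m ≤ L → (s (i + m) : ℚ) = ∑ j ∈ range m, c j * (s (i + j) : ℚ)

/-- the linear complexity of the first `L` digits of `x` in base `b` -/
noncomputable def complexity (b : ℕ) (x : ℝ) (L : ℕ) : ℕ :=
  sInf {m | ∃ c : ℕ → ℚ, Recurrence (digit b x) c L m}

/-- the joint `k`-error linear complexity of the first `L` digits of the numbers `x i`, `i ∈ T`, in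
base `b`: the least order of a common recurrence for the first `L` terms of sequences `s i` of
integers between `-b` and `b` which agree with the digits of the numbers `x i` in all but at most
`k` of the places `1, …, L` -/
noncomputable def jointComplexity (b : ℕ) (T : Finset ℕ) (x : ℕ → ℝ) (k L : ℕ) : ℕ :=
  sInf {m | ∃ (s : ℕ → ℕ → ℤ) (c : ℕ → ℚ) (E : Finset ℕ), E.card ≤ k ∧ ∀ i ∈ T,
    (∀ l, |s i l| ≤ b) ∧ (∀ l ∈ Icc 1 L, l ∉ E → s i l = digit b (x i) l) ∧
    Recurrence (s i) c L m}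

/-- the function `m + C √((m+1) log (m+2))` -/
noncomputable def F (C : ℝ) (m : ℕ) : ℝ :=
  m + C * Real.sqrt (((m : ℝ) + 1) * Real.log ((m : ℝ) + 2))

/-- the odd integers `3 ≤ i ≤ s` -/
def odds (s : ℕ) : Finset ℕ := (Icc 3 s).filter fun i => Odd i

/-- `ζ(i) = ∑ 1/(n+1)^i` -/
noncomputable def zeta (i : ℕ) : ℝ := ∑' n : ℕ, 1 / ((n : ℝ) + 1) ^ i

/-- the number `√(s log log s / log s) / (1000 D)` -/
noncomputable def bound (s D : ℕ) : ℝ :=
  (1 / 1000) / D * Real.sqrt (s * Real.log (Real.log s) / Real.log s)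

lemma card_odds (s : ℕ) : ((odds s).card : ℝ) ≤ s / 2 := by
  have h1 : odds s ⊆ (range (s / 2)).image (fun j => 2 * j + 3) := by
    intro i hi
    unfold odds at hi
    rw [mem_filter, mem_Icc] at hi
    obtain ⟨⟨h3, hs⟩, j, hj⟩ := hi
    rw [mem_image]
    exact ⟨j - 1, by rw [mem_range]; omega, by omega⟩
  have h2 := (card_le_card h1).trans card_image_le
  rw [card_range] at h2
  have h3 : ((s / 2 : ℕ) : ℝ) ≤ s / 2 := Nat.cast_div_le
  exact le_trans (by exact_mod_cast h2) h3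

lemma good_of {s D q0 : ℕ}
    (h : ∀ q : ℕ, q0 ≤ q → bound s D ≤
      (Set.ncard {i : ℕ | 3 ≤ i ∧ i ≤ s ∧ Odd i ∧ ∀ p : ℤ,
        (q : ℝ) ^ (-(1 / (D : ℝ))) ≤ |(q : ℝ) * (∑' n : ℕ, 1 / ((n : ℝ) + 1) ^ i) - p|} : ℝ)) :
    Pool.Agent.Y928.JL.Fam.Good (odds s) zeta D (bound s D) q0 := by
  intro q hq
  have h1 := h q hq
  have h2 : {i : ℕ | i ∈ odds s ∧ ∀ p : ℤ, (q : ℝ) ^ (-(1 / (D : ℝ))) ≤ |(q : ℝ) * zeta i - p|} =
      {i : ℕ | 3 ≤ i ∧ i ≤ s ∧ Odd i ∧ ∀ p : ℤ,
        (q : ℝ) ^ (-(1 / (D : ℝ))) ≤ |(q : ℝ) * (∑' n : ℕ, 1 / ((n : ℝ) + 1) ^ i) - p|} := by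
    ext i
    simp only [Set.mem_ofPred_eq, odds, mem_filter, mem_Icc, zeta]
    tauto
  rw [h2]
  exact h1

/-- **The digits of odd zeta values.** There is `s0` such that for all `s ≥ s0` and all integers `D`
with `1 ≤ D ≤ log log s / 1000` the following holds, with `B = √(s log log s / log s) / (1000 D)`.

(1) There is `C` such that for every set `T` of odd integers `3 ≤ i ≤ s` from which fewer than `B` of
these integers are missing, for all bases `b ≥ 2` and all `k`, `L`, the joint `k`-error linear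
complexity `m` of the first `L` digits of the numbers `ζ(i)`, `i ∈ T`, satisfies
`L ≤ (∑_{i ≤ k} (1 + 1/D)^(i+1)) (m + C √((m+1) log (m+2)))`; so `m ≥ (D/(D+1) - o(1)) L` for
`k = 0`.

(2) For every `0 < ε < 1` there is `L0` such that in every base `b ≥ 2` and for every `L ≥ L0` at
least `B` of the numbers `ζ(3), ζ(5), …, ζ(s)` have linear complexity at least
`(1 - ε) (2 D / (D + 1)) L / s` at the scale `L`. -/
theorem result : ∃ s0 : ℕ, ∀ s ≥ s0, ∀ D : ℕ, 1 ≤ D →
    (D : ℝ) ≤ (1 / 1000) * Real.log (Real.log s) →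
    (∃ C : ℝ, ∀ T ⊆ odds s, ((odds s \ T).card : ℝ) < bound s D → ∀ b : ℕ, 2 ≤ b → ∀ k L : ℕ,
      (L : ℝ) ≤ (∑ i ∈ range (k + 1), (1 + 1 / (D : ℝ)) ^ (i + 1)) *
        F C (jointComplexity b T zeta k L)) ∧
    ∀ ε : ℝ, 0 < ε → ε < 1 → ∃ L0 : ℕ, ∀ b : ℕ, 2 ≤ b → ∀ L : ℕ, L0 ≤ L →
      bound s D ≤ ((odds s).filter fun i =>
        (1 - ε) * (2 * D / (D + 1)) * (L / s) ≤ (complexity b (zeta i) L : ℝ)).card := by
  obtain ⟨s0, hs0⟩ := Pool.Agent.TH818.SA.t_final
  refine ⟨max s0 1, fun s hs D hD hDs => ?_⟩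
  have hs1 : s0 ≤ s := (le_max_left _ _).trans hs
  have hs2 : 1 ≤ s := (le_max_right _ _).trans hs
  obtain ⟨q0, hq0⟩ := hs0 s hs1 D hD hDs
  have hgood := good_of (s := s) (D := D) (q0 := q0) hq0
  constructor
  · obtain ⟨C, _, hC⟩ := Pool.Agent.Y928.JL.Fam.joint_family hD hgood
    refine ⟨C, fun T hT hTc b hb k L => ?_⟩
    obtain ⟨a, c, E, hE, ha⟩ := Pool.Agent.Y928.JL.Fam.joint_attained b hb T zeta k L
    exact hC T hT hTc b hb k L _ a c E hE ha
  · intro ε hε hε1
    have hsR : (0 : ℝ) < s := by exact_mod_cast (by omega : 0 < s)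
    obtain ⟨L0, hL0⟩ := Pool.Agent.Y928.JL.Fam.count_linear hD hgood (N := (s : ℝ) / 2)
      (by positivity) (card_odds s) hε hε1
    refine ⟨L0, fun b hb L hL => ?_⟩
    have h := hL0 b hb L hL
    have e : (1 - ε) * (2 * (D : ℝ) / (D + 1)) * (L / s) =
        (1 - ε) * ((D : ℝ) / (D + 1)) * (L / ((s : ℝ) / 2)) := by
      field_simp
    rw [e]
    exact h

end Pool.Agent.Results.MP_c2395a_nt.DigitComplexity
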