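import Pool.Agent.Y456.DF.MGMain

/-!
# Multiple gamma functions and Hurwitz zeta functions at points of number fields

The values `ζ(k, x) = ∑_{m ≥ 0} 1 / (m + x)^k` of the Hurwitz zeta function give `ζ(2 k + 1)` at `x = 1`, and
`(2^(2 k + 1) - 1) ζ(2 k + 1)` at `x = 1 / 2`. The numbers `ζ(2 k + 1) / π^(2 k)` also appear in the special values of the
multiple gamma functions of Barnes: in the normalisation `Γ_r(1) = 1` the number `log Γ_r(1/2)` is a rational linear
combination of `1`, `log 2`, `log π` and the numbers `ζ'(-j)`, `j < r`, and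
`ζ'(-2 k) = (-1)^k (2 k)! ζ(2 k + 1) / (2 (2 π)^(2 k))`.
The functions `G_r = Γ_r^((-1)^(r - 1))` are entire or analytic on the slit plane and satisfy
`G_1(z + 1) = z G_1(z)` and `G_(r + 1)(z + 1) = G_r(z) G_(r + 1)(z)` (`G_1 = Γ`; `G_2` is the `G`-function of Barnes).

We show for arbitrary analytic solutions `G_1, …, G_R` of these equations that `z`, `G_1`, …, `G_R`, `ψ = Γ' / Γ` and
`ζ(k, z)`, `2 ≤ k ≤ w`, are algebraically independent over `ℂ`, and that at almost all algebraic points of height at most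
`T` their values satisfy no relation of bounded degree and of height at most `T ^ A`, not even approximately and relative
to arbitrary complex constants.
-/

set_option autoImplicit false

open NumberField

namespace Pool.Agent.Results.MP_c2395a_nt.MultipleGammaValues

/-- The numbers `G_i(x_j)`, index `(j, inl i)`; `-ψ(x_j)`, index `(j, inr 0)`; and
`ζ(i + 1, x_j) = ∑_{k ≥ 0} 1 / (x_j + k)^(i + 1)`, index `(j, inr i)`, `1 ≤ i < w`. -/
noncomputable def values {n R w : ℕ} (G : Fin R → ℂ → ℂ) (x : Fin n → ℂ) (z : Fin n × (Fin R ⊕ Fin w)) : ℂ :=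
  match z.2 with
  | Sum.inl i => G i (x z.1)
  | Sum.inr i => if (i : ℕ) = 0 then -Complex.digamma (x z.1) else ∑' k : ℕ, 1 / (x z.1 + k) ^ ((i : ℕ) + 1)

/-- The elements of the number field `F` with image in `L` which are quotients of two integers of `F` all of whose
conjugates have absolute value at most `T`. -/
def Points (F : Type) [Field F] [NumberField F] (ι : F →+* ℂ) (L : Set ℂ) (T : ℝ) : Set F :=
  {x | ι x ∈ L ∧ ∃ a b : 𝓞 F, b ≠ 0 ∧ (∀ φ : F →+* ℂ, ‖φ a‖ ≤ T ∧ ‖φ b‖ ≤ T) ∧ x = a / b}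

/-- The `n`-tuples `x` of points of `F` for which there is a polynomial `P` of degree at most `d` in each of `n (R + w)`
variables, with coefficients of the form `∑ ξ_i ι(c_i)`, where the `c_i` are integers of `F` all of whose conjugates have
absolute value at most `T ^ A`, such that the value of `P` at the numbers `values` is at most `T ^ (-B)` times the
absolute value of some nonzero coefficient of `P`. -/
def Exceptional (n w d : ℕ) {R g : ℕ} (G : Fin R → ℂ → ℂ) (F : Type) [Field F] [NumberField F] (ι : F →+* ℂ)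
    (ξ : Fin g → ℂ) (L : Set ℂ) (A B T : ℝ) : Set (Fin n → F) :=
  {x | (∀ j, x j ∈ Points F ι L T) ∧ ∃ P : MvPolynomial (Fin n × (Fin R ⊕ Fin w)) ℂ, (∀ z, P.degreeOf z ≤ d) ∧
    (∀ s, ∃ c : Fin g → 𝓞 F, (∀ i (φ : F →+* ℂ), ‖φ (c i)‖ ≤ T ^ A) ∧ P.coeff s = ∑ i, ξ i * ι (c i)) ∧
    ∃ s₀, P.coeff s₀ ≠ 0 ∧ ‖MvPolynomial.aeval (values G fun j => ι (x j)) P‖ ≤ T ^ (-B) * ‖P.coeff s₀‖}

/-- Let `G_0, …, G_(R-1)` be analytic functions on `ℂ` without the half-line `(-∞, 0]`, none of them identically zero,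
with `G_0(z + 1) = z G_0(z)` and `G_(i + 1)(z + 1) = G_i(z) G_(i + 1)(z)`.
(1) The functions `z`, `G_0(z)`, …, `G_(R-1)(z)`, `ψ(z)`, `ζ(2, z)`, …, `ζ(w, z)` are algebraically independent over `ℂ`.
(2) Let `L` be a compact subset of the slit plane. For all `m`, `n`, `w`, `g`, `d`, `A` and `ε > 0` there are `B`, `C`, `T₀`
such that for every number field `F` of degree at most `m`, every embedding of `F` in `ℂ`, all complex numbers
`ξ_1, …, ξ_g` and all `T ≥ T₀` the number of exceptional `n`-tuples is at most `C T^ε N^(n - 1)`, where `N` is the number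
of points. -/
theorem result {R : ℕ} (G : Fin R → ℂ → ℂ) (hG : ∀ i, AnalyticOnNhd ℂ (G i) Complex.slitPlane)
    (hne : ∀ i, ∃ z ∈ Complex.slitPlane, G i z ≠ 0)
    (h0 : ∀ i : Fin R, (i : ℕ) = 0 → ∀ z ∈ Complex.slitPlane, G i (z + 1) = z * G i z)
    (hs : ∀ i j : Fin R, (j : ℕ) = i + 1 → ∀ z ∈ Complex.slitPlane, G j (z + 1) = G i z * G j z) :
    (∀ (w : ℕ) (P : MvPolynomial (Option (Fin R ⊕ Fin w)) ℂ),
      (∀ z ∈ Complex.slitPlane, MvPolynomial.aeval (fun o : Option (Fin R ⊕ Fin w) =>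
        o.elim z fun y => values (n := 1) G (fun _ => z) (0, y)) P = 0) → P = 0) ∧
    ∀ (m n w g d : ℕ) (L : Set ℂ), IsCompact L → L ⊆ Complex.slitPlane → ∀ A ε : ℝ, 0 < ε →
      ∃ B C T₀ : ℝ, ∀ (F : Type) [Field F] [NumberField F], Module.finrank ℚ F ≤ m → ∀ (ι : F →+* ℂ) (ξ : Fin g → ℂ)
        (T : ℝ), T₀ ≤ T → (Exceptional n w d G F ι ξ L A B T).Finite ∧
          ((Exceptional n w d G F ι ξ L A B T).ncard : ℝ) ≤ C * T ^ ε * ((Points F ι L T).ncard : ℝ) ^ (n - 1) := by
  classical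
  refine ⟨fun w P hP => ?_, fun m n w g d L hL hL' A ε hε => ?_⟩
  · refine Y456.DF.mg_indep G hG hne h0 hs w P fun z hz => ?_
    have h1 := hP z hz
    rw [MvPolynomial.aeval_eq_eval] at h1
    have h2 : (fun o : Option (Fin R ⊕ Fin w) => o.elim z fun y => values (n := 1) G (fun _ => z) (0, y)) =
        Y456.DF.mgv w G z := by
      funext o
      rcases o with _ | i | i
      · rfl
      · rfl
      · rfl
    rw [h2] at h1
    exact h1
  obtain ⟨B, C, T₀, hC, hT₀, H⟩ := Y456.DF.mg_main G hG hne h0 hs (h := Fin g) m n d w L hL hL' A ε hε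
  refine ⟨B, C, T₀, fun F _ _ hF ι ξ T hT => ?_⟩
  have hT0 : 0 ≤ T := by linarith
  have hP : Points F ι L T = {x : F | Y120.HtLe F T x ∧ ι x ∈ L} := by
    ext x
    constructor
    · rintro ⟨h1, a, b, hb, hab, hx⟩
      exact ⟨⟨a, b, hb, Y120.house_le F hT0 fun φ => (hab φ).1, Y120.house_le F hT0 fun φ => (hab φ).2, hx⟩, h1⟩
    · rintro ⟨⟨a, b, hb, ha, hb', hx⟩, h1⟩
      exact ⟨h1, a, b, hb, fun φ => ⟨(Y120.house_ge F _ φ).trans ha, (Y120.house_ge F _ φ).trans hb'⟩, hx⟩
  have hsub : Exceptional n w d G F ι ξ L A B T ⊆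
      Y124.ExcNF n d F ι ξ (fun t (i : Fin R ⊕ Fin w) => Y456.DF.mgf w G i t) L A B T := by
    rintro x ⟨hx, P, hPd, hPc, s₀, hs₀, hs⟩
    refine ⟨fun j => ?_, P, hPd, hPc, s₀, hs₀, ?_⟩
    · have h1 := hx j
      rw [hP] at h1
      exact h1
    · have h1 : (fun z : Fin n × (Fin R ⊕ Fin w) => Y456.DF.mgf w G z.2 (ι (x z.1))) =
          values G fun j => ι (x j) := by
        funext ⟨j, i⟩
        rcases i with i | i
        · rfl
        · rfl
      rw [h1]
      exact hs
  obtain ⟨h1, h2⟩ := H F hF ι ξ T hT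
  refine ⟨h1.subset hsub, ?_⟩
  rw [hP]
  exact le_trans (by exact_mod_cast Set.ncard_le_ncard hsub h1) h2

end Pool.Agent.Results.MP_c2395a_nt.MultipleGammaValues
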