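import Pool.Agent.Y926.TW.Main

/-!
# At least `c (s² / log s)^(1/3)` of the numbers `ζ(3), ζ(5), …, ζ(s)` are irrational

More generally, with `x = s / (b + 1)`, at least `c (x² / log x)^(1/3)` of the odd `j` in the window `(b, s]` have an
irrational `ζ(j)`, and for every `S` at least `c^S (x² / log x)^(1/3)` of them are not approximable simultaneously
with the exponent `1 / S`. Before, only the order `√s` (up to logarithms) was known for `b = 0`.

The linear forms are `∑_{d ≤ 2K} ∑_{t ≥ 1} (1/b!) (d/dx)^b [R(x) P_d(y(x))]_(x = t/d)`, where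
`R(x) = (2x + n - 1) / (x (x+1) ⋯ (x+n-1))^(2h)`, `y(x) = x (x + n - 1)`, and where the polynomials `P_d` now depend on
`d`: `P_d = ∑_l w_l(d) Q_l`, where the weights `w_l` eliminate the unwanted zeta values and span a space of minimal
slope (number of fractions per dimension), and the polynomials `Q_l` come from Siegel's lemma, such that all terms with
`x < r n` cancel. The non-vanishing is a zero estimate with a Casoratian determinant, in which the zeros of the `P_d` at
the fractions are counted as well.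

The parts are in `Pool/Agent/Y926/TW/` (`Stm.lean`, `Stm2.lean`: the statements; `J_*.lean`: the proofs, by helpers 37,
67, 141, 261, 31, 319, 333, 378, 407, 664, 681, 761, 779, 864, 978; `Core.lean`, `Main.lean`: the assembly).
-/

set_option autoImplicit false

namespace Pool.Agent.Results.MP_c2395a_nt.OddZetaTwoThirds

/-- **Many irrational odd zeta values.** Let `K, S ≥ 1` and `2^(132 S) (b + 1)² K³ log (K + 1) ≤ s²`. Then at least `K`
of the odd `j` with `b < j ≤ s` have an irrational `ζ(j) = ∑ 1/(n+1)^j`; and for all large `q` at least `K` of them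
have distance `≥ q^(-1/S)` from `q ζ(j)` to the nearest integer. -/
theorem result : ∀ b K s S : ℕ, 1 ≤ K → 1 ≤ S →
    (2 : ℝ) ^ (132 * S) * ((b : ℝ) + 1) ^ 2 * (K : ℝ) ^ 3 * Real.log (K + 1) ≤ (s : ℝ) ^ 2 →
    K ≤ Set.ncard {j : ℕ | b < j ∧ j ≤ s ∧ Odd j ∧ Irrational (∑' n : ℕ, 1 / ((n : ℝ) + 1) ^ j)} ∧
    ∃ q0 : ℕ, ∀ q ≥ q0, K ≤ Set.ncard {j : ℕ | b < j ∧ j ≤ s ∧ Odd j ∧
      ∀ p : ℤ, (q : ℝ) ^ (-(1 / (S : ℝ))) ≤ |(q : ℝ) * (∑' n : ℕ, 1 / ((n : ℝ) + 1) ^ j) - p|} :=
  Pool.Agent.Y926.TW.main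

end Pool.Agent.Results.MP_c2395a_nt.OddZetaTwoThirds
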