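import Pool.Agent.Y801.Z5S.Fin

/-!
# The irrationality exponent of `ζ(5)` is at most 83

`1/(n+1)^5` summed over `n : ℕ` is `ζ(5)`. There is `c > 0` such that `|ζ(5) - p/q| ≥ c / q^83` for all
integers `p` and `q ≥ 1`. The previous bound, in the file `ZetaFiveMeasure` of this folder, had the exponent
`6180`.

Method. As in that file, Hankel determinants `D_n(x)` built from linear forms in `1, ζ(5)` are evaluated at an
arbitrary rational number `x` in place of `ζ(5)`. New here:

* `D_n(x)` is a polynomial in `x` of degree at most `14 n + 2` (its size is about `23 n`), and p-adic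
  interpolation at the integers shows that a denominator `b` of `x` costs only `b ^ (14 n + 2)`; primes whose
  fifth powers divide `b` are treated separately (files `Interp`, `Deg`, `MA`).
* The parameter `n` is a prime with `n ^ 5` not dividing `b` and `n ≤ (3/7) log b` (file `Sel`, nonvanishing in
  `NonV5`).
* The coefficient of `ζ(5)` is bounded through its value at the interpolation nodes (files `Rho2a`, `Rho2`).
* The archimedean size is a discrete logarithmic energy: the nodes are spread over cells `[p n, q n]` with
  arbitrary densities, and for any choice of densities the determinant is bounded by the energy and the maximum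
  of the potential (files `GA1`, `GP1` to `GP8`, `FarB`). For 16 cells up to `434 n` the potential inequality is
  checked by the kernel with integer arithmetic (files `Num1`, `Cells`, `Fin`).

Credits: the sharper analysis and this file, helper801; the determinants, their p-adic bounds and the first
finite exponent are in the starting files `Pool/Agent/H336R2/Z5/`, `Pool/Agent/H336R2/Z5M/`,
`Pool/Agent/H337R2/` and `Pool/Agent/H312R/`.
-/

namespace Pool.Agent.Results.MP_c2395a_nt.ZetaFiveMeasureSharp

/-- There is a constant `c > 0` with `|ζ(5) - p/q| ≥ c / q^83` for all integers `p`, `q ≥ 1`; in particular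
`ζ(5)` is irrational, with irrationality exponent at most `83`. -/
theorem result : ∃ c : ℝ, 0 < c ∧ ∀ (p : ℤ) (q : ℕ), 0 < q →
    c / (q : ℝ) ^ 83 ≤ |(∑' n : ℕ, 1 / ((n : ℝ) + 1) ^ 5) - (p : ℝ) / q| :=
  Pool.Agent.Y801.Z5S.measure83

end Pool.Agent.Results.MP_c2395a_nt.ZetaFiveMeasureSharp
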